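import Pool.Agent.H24.LP.Nib.TwoThirds

/-!
# Asymptotic bounds for list packing and correspondence packing
-/

namespace Pool.Agent.PK.Old.TwoThirds

open Pool.Agent.H24.LP

/-- For every `ε > 0` there is `k₀` such that for every `k ≥ k₀`:
every `k`-cover and every `k`-list-assignment of every finite graph with maximum average degree less
than `(2/3 - ε) k` has a packing, hence both packing numbers of this class are at most `k`
(that is, `a(k) ≥ b(k) ≥ (2/3 - ε) k`);
and every `k`-cover and every `k`-list-assignment of every finite graph whose degrees are all at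
most `(1 - ε) k` has a packing. -/
theorem result (ε : ℝ) (hε : 0 < ε) : ∃ k₀ : ℕ, ∀ k : ℕ, k₀ ≤ k →
    (∀ (V : Type) (_ : Finite V) (G : SimpleGraph V), MadLT G ((2 / 3 - ε) * k) →
      CorrPackable G k ∧ ListPackable G k) ∧
    (∀ m ∈ valuesC ((2 / 3 - ε) * k), m ≤ k) ∧ (∀ m ∈ valuesL ((2 / 3 - ε) * k), m ≤ k) ∧
    (∀ (V : Type) (_ : Finite V) (G : SimpleGraph V),
      (∀ v, ((G.neighborSet v).ncard : ℝ) ≤ (1 - ε) * k) →
      CorrPackable G k ∧ ListPackable G k) := by
  obtain ⟨K1, hK1⟩ := Nib.permPackable_mad hε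
  obtain ⟨K2, hK2⟩ := Nib.permPackable_deg hε
  refine ⟨max (max K1 K2) 1, ?_⟩
  intro k hk
  have h1 : K1 ≤ k := (le_max_left _ _).trans ((le_max_left _ _).trans hk)
  have h2 : K2 ≤ k := (le_max_right _ _).trans ((le_max_left _ _).trans hk)
  have h3 : 1 ≤ k := (le_max_right _ _).trans hk
  refine ⟨?_, ?_, ?_, ?_⟩
  · intro V hV G h
    have hc := corrPackable_of_perm (hK1 k h1 V hV G h)
    exact ⟨hc, listPackable_of_corr hc⟩
  · rintro m ⟨V, hV, G, hG, rfl⟩
    exact chiC_le h3 (corrPackable_of_perm (hK1 k h1 V hV G hG))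
  · rintro m ⟨V, hV, G, hG, rfl⟩
    exact chiL_le h3 (corrPackable_of_perm (hK1 k h1 V hV G hG))
  · intro V hV G h
    have hc := corrPackable_of_perm (hK2 k h2 V hV G h)
    exact ⟨hc, listPackable_of_corr hc⟩

end Pool.Agent.PK.Old.TwoThirds
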